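import Pool.Agent.H90.UL.Targets
import Pool.Agent.H27.Pattern.Basic
import Pool.Agent.H27.LS.Modulus

/-! (LEN) some covering block is short, MP_e36f12_nt. -/

set_option autoImplicit false

namespace Pool.Agent.H19.UL

open Pool.Agent.H27.Pattern Pool.Agent.H27.LS Pool.Agent.H90.UL

theorem mem_covering {k q Y : ℕ} (hk : 1 ≤ k) (hq : q.Prime) (hkq : p k ≤ q) (hqY : q ≤ Y)
    (h : ∀ a : ZMod q, a ≠ 0 → ∃ r : ℕ, r.Prime ∧ p k ≤ r ∧ r ≤ Y ∧ ((r : ℕ) : ZMod q) = a) :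
    Nat.primeCounting Y ∈ CoveringLengths k := by
  refine ⟨q, hq, fun c hc => ?_⟩
  rcases Nat.eq_zero_or_pos c with rfl | hc0
  · obtain ⟨i, hi, hir⟩ := exists_index hq hk hkq hqY
    exact ⟨i, hi, by rw [hir, Nat.mod_self]⟩
  · have hne : ((c : ℕ) : ZMod q) ≠ 0 := by
      rw [Ne, ZMod.natCast_eq_zero_iff]
      intro hd
      exact absurd (Nat.le_of_dvd hc0 hd) (by omega)
    obtain ⟨r, hr, h1, h2, h3⟩ := h _ hne
    obtain ⟨i, hi, hir⟩ := exists_index hr hk h1 h2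
    refine ⟨i, hi, ?_⟩
    rw [hir]
    have h4 := (ZMod.natCast_eq_natCast_iff' r c q).1 h3
    rwa [Nat.mod_eq_of_lt hc] at h4

theorem covering_nonempty {k : ℕ} (hk : 1 ≤ k) : (CoveringLengths k).Nonempty := by
  have hq := p_prime k
  have := Fact.mk hq
  have h1 : ∀ a : ZMod (p k), ∃ r : ℕ, a ≠ 0 → r.Prime ∧ p k < r ∧ ((r : ℕ) : ZMod (p k)) = a := by
    intro a
    by_cases ha : a = 0
    · exact ⟨0, fun h => absurd ha h⟩
    · obtain ⟨r, hr1, hr2, hr3⟩ :=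
        Nat.forall_exists_prime_gt_and_eq_mod (Ne.isUnit ha) (p k)
      exact ⟨r, fun _ => ⟨hr2, hr1, hr3⟩⟩
  choose f hf using h1
  refine ⟨_, mem_covering (Y := p k + Finset.univ.sup f) hk hq le_rfl (by omega) fun a ha => ?_⟩
  obtain ⟨h1, h2, h3⟩ := hf a ha
  exact ⟨f a, h1, h2.le, (Finset.le_sup (Finset.mem_univ a)).trans (by omega), h3⟩

theorem big_case {k : ℕ} (hk : 1 ≤ k) (h : Big (p k : ℝ)) :
    ∃ l ∈ CoveringLengths k, (l : ℝ) ≤ 10 ^ 13 * ((p k : ℝ) ^ 2 * Real.log (p k) ^ 5) := by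
  have h0 := h.pos
  have hl := h.log_pos
  have hX1 : 10 ^ 70 ≤ XX (p k) := by nlinarith [h.XX_ge, h.Q_ge]
  have hX0 := h.XX_pos
  have hl1 : (1 : ℝ) ≤ Real.log (p k) := by linarith [h.one_le]
  obtain ⟨q, hq, hq1, hq2, hcl⟩ := exists_modulus h
  have hbig : 100 * (p k : ℝ) ≤ XX (p k) := by nlinarith [h.XX_ge, h.Q_ge]
  have hqY : q ≤ ⌊3 * XX (p k)⌋₊ := Nat.le_floor (by linarith)
  refine ⟨_, mem_covering (Y := ⌊3 * XX (p k)⌋₊) hk hq (by exact_mod_cast hq1.le) hqY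
    fun a ha => ?_, ?_⟩
  · obtain ⟨r, hr, h1, h2, h3⟩ := hcl a ha
    refine ⟨r, hr, ?_, Nat.le_floor h2.le, h3⟩
    have : ((p k : ℕ) : ℝ) < r := by linarith
    exact_mod_cast this.le
  · have h1 := Chebyshev.pi_le_log4_mul_div (x := 3 * XX (p k)) (by linarith)
    refine h1.trans ?_
    have h2 : Real.log (p k) ≤ Real.log √(3 * XX (p k)) := by
      apply Real.log_le_log h0
      apply Real.le_sqrt_of_sq_le
      linarith [h.XX_ge]
    have hl3 : Real.log 2 < 0.6931471808 := Real.log_two_lt_d9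
    have h4 : Real.log 4 = 2 * Real.log 2 := by
      rw [show (4 : ℝ) = 2 ^ 2 by norm_num, Real.log_pow]
      norm_num
    have h5 : Real.log 4 * (3 * XX (p k)) / Real.log √(3 * XX (p k)) ≤
        Real.log 4 * (3 * XX (p k)) / Real.log (p k) := by
      gcongr
    have h6 : Real.log 4 * (3 * XX (p k)) / Real.log (p k) =
        3 * Real.log 4 * 10 ^ 12 * ((p k : ℝ) ^ 2 * Real.log (p k) ^ 5) := by
      unfold XX
      field_simp
    have h7 : √(3 * XX (p k)) ≤ 2 * √(XX (p k)) := by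
      rw [Real.sqrt_le_left (by positivity), mul_pow, Real.sq_sqrt hX0.le]
      linarith
    rw [h.sqrt_XX] at h7
    have h8 : (p k : ℝ) * Real.log (p k) ^ 3 ≤ (p k : ℝ) ^ 2 * Real.log (p k) ^ 5 := by
      have h9 : Real.log (p k) ^ 3 ≤ Real.log (p k) ^ 5 := pow_le_pow_right₀ hl1 (by norm_num)
      have h10 : (p k : ℝ) ≤ (p k : ℝ) ^ 2 := by nlinarith [h.Q_ge]
      exact mul_le_mul h10 h9 (by positivity) (by positivity)
    rw [h6] at h5
    have h9 : 0 < (p k : ℝ) ^ 2 * Real.log (p k) ^ 5 := by positivity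
    rw [h4] at h5
    have h10 : 3 * (2 * Real.log 2) * 10 ^ 12 * ((p k : ℝ) ^ 2 * Real.log (p k) ^ 5) ≤
        5 * 10 ^ 12 * ((p k : ℝ) ^ 2 * Real.log (p k) ^ 5) := by
      apply mul_le_mul_of_nonneg_right _ h9.le
      norm_num at hl3 ⊢
      linarith
    have h11 : 2 * (10 ^ 6 * (p k : ℝ) * Real.log (p k) ^ 3) ≤
        10 ^ 12 * ((p k : ℝ) ^ 2 * Real.log (p k) ^ 5) := by
      nlinarith
    rw [h4]
    linarith

theorem pf_len : T_LEN := by
  classical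
  have hmem : ∀ k : ℕ, 1 ≤ k → sInf (CoveringLengths k) ∈ CoveringLengths k := fun k hk =>
    Nat.sInf_mem (covering_nonempty hk)
  have htend : Filter.Tendsto (fun k : ℕ => (p k : ℝ)) Filter.atTop Filter.atTop := by
    refine tendsto_natCast_atTop_atTop.comp ?_
    refine Filter.tendsto_atTop_mono' _ ?_ (Filter.tendsto_sub_atTop_nat 1)
    exact Filter.Eventually.of_forall fun k =>
      (Nat.nth_strictMono Nat.infinite_setOf_prime).le_apply
  obtain ⟨k0, hk0⟩ := Filter.eventually_atTop.1 (htend.eventually eventually_big)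
  set M := (Finset.range k0).sup fun k => sInf (CoveringLengths k) with hM
  refine ⟨10 ^ 13 + 2 * M, fun k hk => ⟨_, hmem k hk, ?_⟩⟩
  have hp2 : (2 : ℝ) ≤ p k := by exact_mod_cast (p_prime k).two_le
  have hl2 : 0.6931471803 < Real.log 2 := Real.log_two_gt_d9
  have hlp : 0.69 ≤ Real.log (p k) := by
    have := Real.log_le_log (by norm_num) hp2
    norm_num at hl2 ⊢
    linarith
  have hb : 1 / 2 ≤ (p k : ℝ) ^ 2 * Real.log (p k) ^ 5 := by
    have h1 : (2 : ℝ) ^ 2 ≤ (p k : ℝ) ^ 2 := by gcongr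
    have h2 : (0.69 : ℝ) ^ 5 ≤ Real.log (p k) ^ 5 := by gcongr
    calc (1 : ℝ) / 2 ≤ 2 ^ 2 * 0.69 ^ 5 := by norm_num
      _ ≤ _ := by gcongr
  by_cases hlt : k < k0
  · have h1 : sInf (CoveringLengths k) ≤ M :=
      Finset.le_sup (f := fun k => sInf (CoveringLengths k)) (Finset.mem_range.2 hlt)
    have h2 : ((sInf (CoveringLengths k) : ℕ) : ℝ) ≤ M := by exact_mod_cast h1
    have hM0 : (0 : ℝ) ≤ M := Nat.cast_nonneg _
    calc ((sInf (CoveringLengths k) : ℕ) : ℝ) ≤ M := h2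
      _ ≤ (10 ^ 13 + 2 * M) * (1 / 2) := by nlinarith
      _ ≤ (10 ^ 13 + 2 * M) * ((p k : ℝ) ^ 2 * Real.log (p k) ^ 5) := by gcongr
      _ = _ := by ring
  · obtain ⟨l, hl, hle⟩ := big_case hk (hk0 k (by omega))
    have h1 : sInf (CoveringLengths k) ≤ l := Nat.sInf_le hl
    have h2 : ((sInf (CoveringLengths k) : ℕ) : ℝ) ≤ l := by exact_mod_cast h1
    have hM0 : (0 : ℝ) ≤ M := Nat.cast_nonneg _
    have hb0 : 0 ≤ (p k : ℝ) ^ 2 * Real.log (p k) ^ 5 := by linarith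
    calc ((sInf (CoveringLengths k) : ℕ) : ℝ) ≤ l := h2
      _ ≤ 10 ^ 13 * ((p k : ℝ) ^ 2 * Real.log (p k) ^ 5) := hle
      _ ≤ (10 ^ 13 + 2 * M) * ((p k : ℝ) ^ 2 * Real.log (p k) ^ 5) := by
          apply mul_le_mul_of_nonneg_right _ hb0
          linarith
      _ = _ := by ring

end Pool.Agent.H19.UL
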